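import Pool.Agent.Helper85.RCSYS
import Pool.Agent.Helper94.Sub.TwoSub
import Pool.Agent.Helper65.RP.Defs

/-!
# The Subspace theorem at one distinguished place with algebraic coefficients
-/

set_option autoImplicit false
set_option linter.unusedSectionVars false
set_option linter.style.haveILetI false

namespace Pool.Agent.Helper33.RP

open Pool.Agent.Helper85.Sub Pool.Agent.Helper85.RC Pool.Agent.Helper10.Sub NumberField Polynomial
open IsDedekindDomain
open Pool.Agent.Helper65.RP (PD)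

section lifting
variable {K L : Type} [Field K] [NumberField K] [Field L] [NumberField L]

lemma mem_ffL (j : K →+* L) {p : ℕ} [Fact p.Prime] (σ : K →+* PadicAlgCl p) (x : K) :
    σ x ∈ FF L p := by
  letI : Algebra K L := j.toAlgebra
  obtain ⟨σ', h⟩ := exists_extend (K := L) σ
  rw [← h x]
  exact mem_ff σ' _

/-- Embeddings in the splitting field attached to `L` and in the algebraic closure. -/
noncomputable def lfe (j : K →+* L) {p : ℕ} [Fact p.Prime] :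
    (K →+* FF L p) ≃ (K →+* PadicAlgCl p) where
  toFun σ := ((FF L p).val : FF L p →+* PadicAlgCl p).comp σ
  invFun σ := σ.codRestrict (FF L p) (mem_ffL j σ)
  left_inv σ := by
    ext x
    rfl
  right_inv σ := by
    ext x
    rfl

lemma lfe_norm (j : K →+* L) {p : ℕ} [Fact p.Prime] (σ : K →+* FF L p) (x : K) :
    ‖lfe j σ x‖ = ‖σ x‖ := rfl

lemma card_embL (j : K →+* L) {p : ℕ} [Fact p.Prime] :
    Fintype.card (K →+* FF L p) = Module.finrank ℚ K := by
  rw [Fintype.card_congr (lfe j (p := p)),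
    Fintype.card_congr (RingHom.equivRatAlgHom K (PadicAlgCl p))]
  exact AlgHom.card ℚ K (PadicAlgCl p)

/-- The embedding in the smaller splitting field. -/
noncomputable def dn (j : K →+* L) {p : ℕ} [Fact p.Prime] : (K →+* FF L p) ≃ (K →+* FF K p) :=
  (lfe j).trans liftEquiv.symm

lemma dn_lift (j : K →+* L) {p : ℕ} [Fact p.Prime] (σ : K →+* FF L p) :
    liftEquiv (dn j σ) = lfe j σ := liftEquiv.apply_symm_apply _

lemma dn_norm (j : K →+* L) {p : ℕ} [Fact p.Prime] (σ : K →+* FF L p) (x : K) :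
    ‖dn j σ x‖ = ‖σ x‖ := by
  have h2 : liftEquiv (dn j σ) x = lfe j σ x := by rw [dn_lift]
  have h3 : ‖dn j σ x‖ = ‖liftEquiv (dn j σ) x‖ := rfl
  rw [h3, h2]
  rfl

/-- The index in `Lam` of an embedding in the larger splitting field. -/
noncomputable def idx (j : K →+* L) (T : Finset Nat.Primes) (t : T) (σ : K →+* FF L (pr T t)) :
    Lam K T := Sum.inr ⟨t, dn j σ⟩

lemma av_idx (j : K →+* L) (T : Finset Nat.Primes) (t : T) (σ : K →+* FF L (pr T t)) (x : K) :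
    av K T (idx j T t σ) x = ‖σ x‖ := by
  rw [idx, av_inr, dn_norm]

lemma prod_idx (j : K →+* L) (T : Finset Nat.Primes) (t : T) (f : Lam K T → ℝ) :
    ∏ σ : K →+* FF L (pr T t), f (idx j T t σ) =
      ∏ σ : K →+* FF K (pr T t), f (Sum.inr ⟨t, σ⟩) :=
  Equiv.prod_comp (dn j) fun σ => f (Sum.inr ⟨t, σ⟩)

end lifting

/-- The matrix of forms at an embedding. -/
theorem local_mat {K : Type} [Field K] [NumberField K] {Ω₀ C : Type} [NormedField Ω₀]
    [CharZero Ω₀] [NormedField C] [CharZero C] {M : ℕ} (σ₀ : K →+* Ω₀)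
    (A : Matrix (Fin M) (Fin M) Ω₀) (hA : ∀ i j, IsAlgebraic ℚ (A i j)) (hdet : A.det ≠ 0)
    (σ : K →+* C) (g : Prop) [Decidable g]
    (hg : g → ∃ τ : Ω₀ →+* C, (∀ z, ‖τ z‖ = ‖z‖) ∧ ∀ x, σ x = τ (σ₀ x)) :
    ∃ l : Matrix (Fin M) (Fin M) C, (∀ i j, IsAlgebraic ℚ (l i j)) ∧ l.det ≠ 0 ∧
      ∀ (a : Fin M → ℝ) (b : ℝ) (y : Fin M → K), (∀ i, ‖∑ j, A i j * σ₀ (y j)‖ ≤ a i) →
        (¬ g → ∀ i, ‖σ (y i)‖ ≤ b) → ∀ i, ‖∑ j, l i j * σ (y j)‖ ≤ if g then a i else b := by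
  by_cases hc : g
  · obtain ⟨τ, hτ, hστ⟩ := hg hc
    refine ⟨A.map τ, fun i j => ?_, ?_, ?_⟩
    · rw [Matrix.map_apply]
      exact (hA i j).algHom τ.toRatAlgHom
    · have h3 : (A.map τ).det = τ A.det := (RingHom.map_det τ _).symm
      rw [h3, _root_.map_ne_zero]
      exact hdet
    · intro a b y ha _ i
      rw [if_pos hc]
      have h3 : ∑ j, (A.map τ) i j * σ (y j) = τ (∑ j, A i j * σ₀ (y j)) := by
        rw [map_sum]
        refine Finset.sum_congr rfl fun j _ => ?_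
        rw [map_mul, hστ, Matrix.map_apply]
      rw [h3, hτ]
      exact ha i
  · refine ⟨1, ?_, ?_, ?_⟩
    · intro i j
      rw [Matrix.one_apply]
      split_ifs
      · exact isAlgebraic_one
      · exact isAlgebraic_zero
    · rw [Matrix.det_one]
      exact one_ne_zero
    · intro a b y _ hb i
      rw [if_neg hc]
      have h3 : ∑ j, (1 : Matrix (Fin M) (Fin M) C) i j * σ (y j) = σ (y i) := by
        rw [Finset.sum_eq_single i]
        · rw [Matrix.one_apply_eq, one_mul]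
        · intro j _ hj
          rw [Matrix.one_apply_ne (Ne.symm hj), zero_mul]
        · simp
      rw [h3]
      exact hb hc i

/-- The Subspace theorem at a set `G` of embeddings conjugate to `σ₀`. -/
theorem sub_gen {K L : Type} [Field K] [NumberField K] [Field L] [NumberField L] (j : K →+* L)
    (T : Finset Nat.Primes) {Ω₀ : Type} [NormedField Ω₀] [CharZero Ω₀] (σ₀ : K →+* Ω₀)
    (G : Finset (Lam K T))
    (hG1 : ∀ σ : K →+* ℂ, Sum.inl σ ∈ G →
      ∃ τ : Ω₀ →+* ℂ, (∀ z, ‖τ z‖ = ‖z‖) ∧ ∀ x, σ x = τ (σ₀ x))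
    (hG2 : ∀ (t : T) (σ : K →+* FF L (pr T t)), idx j T t σ ∈ G →
      ∃ τ : Ω₀ →+* FF L (pr T t), (∀ z, ‖τ z‖ = ‖z‖) ∧ ∀ x, σ x = τ (σ₀ x))
    {M : ℕ} (A : Matrix (Fin M) (Fin M) Ω₀) (hM : 2 ≤ M) (hA : ∀ i j, IsAlgebraic ℚ (A i j))
    (hdet : A.det ≠ 0) (δ B : ℝ) (hδ : 0 < δ) [Fintype {l : Lam K T // l ∉ G}] :
    ∃ 𝒲 : Finset (Submodule K (Fin M → K)), (∀ W ∈ 𝒲, W ≠ ⊤) ∧
      ∀ (Q : ℝ) (a : Fin M → ℝ) (b : {l : Lam K T // l ∉ G} → ℝ) (y : Fin M → K), 1 ≤ Q →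
        (∀ i, y i ∈ OP K (pprod (pr T))) →
        (∀ i, Q ^ (-B) ≤ a i ∧ a i ≤ Q ^ B) → (∀ l, Q ^ (-B) ≤ b l ∧ b l ≤ Q ^ B) →
        (∀ i, ‖∑ j, A i j * σ₀ (y j)‖ ≤ a i) → (∀ l i, av K T l.1 (y i) ≤ b l) →
        (∏ i, a i) ^ G.card * ∏ l, b l ^ M ≤ Q ^ (-δ) → ∃ W ∈ 𝒲, y ∈ W := by
  classical
  let Fl : T → Type := fun t => FF L (pr T t)
  letI : ∀ t, NontriviallyNormedField (Fl t) := fun t => instNNF
  letI : ∀ t, NormedAlgebra ℚ_[pr T t] (Fl t) := fun t => instNA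
  haveI : ∀ t, FiniteDimensional ℚ_[pr T t] (Fl t) := fun t => ff_finite L (pr T t)
  haveI : ∀ t, CharZero (Fl t) := fun t => inferInstanceAs (CharZero (FF L (pr T t)))
  letI : ∀ t, Fintype (K →+* Fl t) := fun t => inferInstanceAs (Fintype (K →+* FF L (pr T t)))
  choose l hl hd hbd using fun σ : K →+* ℂ =>
    local_mat σ₀ A hA hdet σ (Sum.inl σ ∈ G) (hG1 σ)
  choose l' hl' hd' hbd' using fun (t : T) (σ : K →+* FF L (pr T t)) =>
    local_mat σ₀ A hA hdet σ (idx j T t σ ∈ G) (hG2 t σ)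
  obtain ⟨𝒲, h𝒲, hmain⟩ := Pool.Agent.Helper98.Sub.subspaceK (K := K) Fl
    (fun t => card_embL j) M hM δ B hδ
    (fun ι _ _ hι A A' algA algA' dA dA' =>
      Pool.Agent.Helper94.Sub.subspaceF_all Fl (fun t => ff_span) (δ / 2) (B + 1)
        (pr_injective T) hι (by positivity) A A' algA algA' dA dA')
    l l' hl hl' hd hd'
  refine ⟨𝒲, h𝒲, ?_⟩
  intro Q a b y hQ hy ha hb hrow hav hprod
  set wt : Lam K T → Fin M → ℝ := fun s i =>
    if s ∈ G then a i else (if h : s ∉ G then b ⟨s, h⟩ else 1) with hwt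
  have hwt1 : ∀ s i, Q ^ (-B) ≤ wt s i ∧ wt s i ≤ Q ^ B := by
    intro s i
    simp only [hwt]
    by_cases hs : s ∈ G
    · rw [if_pos hs]
      exact ha i
    · rw [if_neg hs, dif_pos hs]
      exact hb _
  have hp : (∏ σ, ∏ i, wt (Sum.inl σ) i) * ∏ t, ∏ σ, ∏ i, wt (idx j T t σ) i ≤ Q ^ (-δ) := by
    refine le_trans (le_of_eq ?_) hprod
    have h1 : (∏ σ, ∏ i, wt (Sum.inl σ) i) * ∏ t, ∏ σ, ∏ i, wt (idx j T t σ) i =
        ∏ s : Lam K T, ∏ i, wt s i := by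
      rw [Fintype.prod_sum_type, Fintype.prod_sigma]
      congr 1
      refine Finset.prod_congr rfl fun t _ => ?_
      exact prod_idx j T t (fun s => ∏ i, wt s i)
    rw [h1, ← Finset.prod_mul_prod_compl G]
    congr 1
    · rw [← Finset.prod_const]
      refine Finset.prod_congr rfl fun s hs => Finset.prod_congr rfl fun i _ => ?_
      simp only [hwt]
      rw [if_pos hs]
    · rw [Finset.prod_subtype Gᶜ (p := fun l => l ∉ G) (fun x => Finset.mem_compl)]
      refine Finset.prod_congr rfl fun s _ => ?_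
      have h2 : ∀ i, wt s.1 i = b s := by
        intro i
        simp only [hwt]
        rw [if_neg s.2, dif_pos s.2]
      rw [Finset.prod_congr rfl fun i _ => h2 i, Finset.prod_const, Finset.card_univ,
        Fintype.card_fin]
  obtain ⟨W, hW, hyW⟩ := hmain Q (fun σ => wt (Sum.inl σ)) (fun t σ => wt (idx j T t σ)) hQ
    (fun σ i => hwt1 _ i) (fun t σ i => hwt1 _ i) hp y (fun k => hy k)
    (fun σ i => by
      have h1 := hbd σ a (if h : Sum.inl σ ∉ G then b ⟨Sum.inl σ, h⟩ else 1) y hrow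
        (fun h i => by
          rw [dif_pos h]
          exact hav ⟨Sum.inl σ, h⟩ i) i
      exact h1)
    (fun t σ i => by
      have h1 := hbd' t σ a (if h : idx j T t σ ∉ G then b ⟨idx j T t σ, h⟩ else 1) y hrow
        (fun h i => by
          rw [dif_pos h]
          rw [← av_idx j T t σ]
          exact hav ⟨idx j T t σ, h⟩ i) i
      exact h1)
  exact ⟨W, hW, hyW⟩

/-- A number field containing given algebraic elements. -/
lemma exists_nf {K : Type} [Field K] [NumberField K] {p : ℕ} [Fact p.Prime]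
    (σ₀ : K →+* PadicAlgCl p) (E : Finset (PadicAlgCl p)) (hE : ∀ x ∈ E, IsAlgebraic ℚ x) :
    ∃ (L : Type) (_ : Field L) (_ : NumberField L) (j : K →+* L) (ι : L →+* PadicAlgCl p),
      (∀ x, ι (j x) = σ₀ x) ∧ ∀ x ∈ E, ∃ y, ι y = x := by
  classical
  let φ : K →ₐ[ℚ] PadicAlgCl p := RingHom.equivRatAlgHom K (PadicAlgCl p) σ₀
  let F : IntermediateField ℚ (PadicAlgCl p) :=
    φ.fieldRange ⊔ IntermediateField.adjoin ℚ (E : Set (PadicAlgCl p))
  haveI h1 : FiniteDimensional ℚ φ.fieldRange := φ.toLinearMap.finiteDimensional_range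
  haveI h2 : FiniteDimensional ℚ (IntermediateField.adjoin ℚ (E : Set (PadicAlgCl p))) :=
    IntermediateField.finiteDimensional_adjoin fun x hx => (hE x hx).isIntegral
  haveI h3 : FiniteDimensional ℚ F := IntermediateField.finiteDimensional_sup _ _
  refine ⟨F, inferInstance, ?_, ?_, F.val.toRingHom, ?_, ?_⟩
  · exact { to_charZero := inferInstance, to_finiteDimensional := h3 }
  · exact σ₀.codRestrict F fun x => le_sup_left (a := φ.fieldRange) ⟨x, rfl⟩
  · intro x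
    rfl
  · intro x hx
    have hxF : x ∈ F := le_sup_right (a := φ.fieldRange)
      (IntermediateField.subset_adjoin ℚ (E : Set (PadicAlgCl p)) hx)
    exact ⟨⟨x, hxF⟩, rfl⟩

/-- Embeddings with the same absolute value are conjugate. -/
lemma exists_conj {K L : Type} [Field K] [NumberField K] [Field L] [NumberField L]
    {p : ℕ} [Fact p.Prime]
    (σ₀ σ : K →+* FF L p) (h : ∀ x, ‖σ x‖ = ‖σ₀ x‖) :
    ∃ τ : FF L p →+* FF L p, (∀ z, ‖τ z‖ = ‖z‖) ∧ ∀ x, σ x = τ (σ₀ x) := by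
  set pb := Field.powerBasisOfFiniteOfSeparable ℚ K with hpb
  let v : FF L p →+* PadicAlgCl p := ((FF L p).val : FF L p →+* PadicAlgCl p)
  have hconj := isConjRoot_of_norm_eq (σ := v.comp σ) (σ' := v.comp σ₀) (fun x => h x) pb.gen
  have hconj' : IsConjRoot ℚ_[p] (σ pb.gen) (σ₀ pb.gen) := by
    have e1 : minpoly ℚ_[p] (σ pb.gen) = minpoly ℚ_[p] (v.comp σ pb.gen) :=
      (IntermediateField.minpoly_eq (σ pb.gen))
    have e2 : minpoly ℚ_[p] (σ₀ pb.gen) = minpoly ℚ_[p] (v.comp σ₀ pb.gen) :=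
      (IntermediateField.minpoly_eq (σ₀ pb.gen))
    rw [IsConjRoot, e1, e2]
    exact hconj
  have := ff_normal L p
  obtain ⟨τ, hτ⟩ := isConjRoot_iff_exists_algEquiv.1 hconj'
  refine ⟨(τ.toRingEquiv : FF L p →+* FF L p), fun z => ff_norm_equiv τ z, ?_⟩
  have h3 : RingHom.equivRatAlgHom K (FF L p) σ = RingHom.equivRatAlgHom K (FF L p)
      ((τ.toRingEquiv : FF L p →+* FF L p).comp σ₀) := by
    refine pb.algHom_ext ?_
    exact hτ.symm
  have h4 := (RingHom.equivRatAlgHom K (FF L p)).injective h3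
  intro x
  exact DFunLike.congr_fun h4 x

/-- The ring `OP` has fraction field `K`. -/
lemma frac_OP {K : Type} [Field K] [NumberField K] (P : ℕ) (x : K) :
    ∃ y ∈ OP K P, y ≠ 0 ∧ x * y ∈ OP K P := by
  obtain ⟨a, b, hb, h⟩ := IsFractionRing.div_surjective (A := 𝓞 K) x
  have hb0 : (algebraMap (𝓞 K) K b) ≠ 0 := by
    rw [Ne, FaithfulSMul.algebraMap_eq_zero_iff]
    exact nonZeroDivisors.ne_zero hb
  refine ⟨algebraMap (𝓞 K) K b, ⟨0, ?_⟩, hb0, ⟨0, ?_⟩⟩
  · rw [pow_zero, one_mul]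
    exact RingOfIntegers.isIntegral_coe b
  · rw [pow_zero, one_mul, ← h, div_mul_cancel₀ _ hb0]
    exact RingOfIntegers.isIntegral_coe a

/-- The structure `PD` attached to a set of conjugate embeddings. -/
noncomputable def mkPD {K Ω : Type} [Field K] [NumberField K] [NormedField Ω] [Algebra K Ω]
    (T : Finset Nat.Primes) (G : Finset (Lam K T)) [Fintype {l : Lam K T // l ∉ G}]
    (hG : G.Nonempty) (hN : ∀ l ∈ G, ∀ x, av K T l x = ‖algebraMap K Ω x‖)
    (hsub : ∀ (M : ℕ) (A : Matrix (Fin M) (Fin M) Ω), 2 ≤ M → (∀ i j, IsAlgebraic K (A i j)) →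
      A.det ≠ 0 → ∀ δ B : ℝ, 0 < δ →
      ∃ 𝒲 : Finset (Submodule K (Fin M → K)), (∀ W ∈ 𝒲, W ≠ ⊤) ∧
      ∀ (Q : ℝ) (a : Fin M → ℝ) (b : {l : Lam K T // l ∉ G} → ℝ) (y : Fin M → K), 1 ≤ Q →
        (∀ i, y i ∈ OP K (pprod (pr T))) →
        (∀ i, Q ^ (-B) ≤ a i ∧ a i ≤ Q ^ B) → (∀ l, Q ^ (-B) ≤ b l ∧ b l ≤ Q ^ B) →
        (∀ i, ‖∑ j, A i j * algebraMap K Ω (y j)‖ ≤ a i) → (∀ l i, av K T l.1 (y i) ≤ b l) →
        (∏ i, a i) ^ G.card * ∏ l, b l ^ M ≤ Q ^ (-δ) → ∃ W ∈ 𝒲, y ∈ W) :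
    PD K Ω {l : Lam K T // l ∉ G} where
  n := G.card
  hn := Finset.card_pos.2 hG
  abv := fun l => av K T l.1
  O := OP K (pprod (pr T))
  frac := frac_OP _
  one_le := by
    classical
    intro x hx h0
    refine (one_le_prod (T := T) hx h0).trans_eq ?_
    rw [← Finset.prod_mul_prod_compl G, Finset.prod_congr rfl fun l hl => hN l hl x,
      Finset.prod_const, Finset.prod_subtype Gᶜ (p := fun l => l ∉ G)
        (fun x => Finset.mem_compl)]
  sub := hsub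

/-- The case of a complex embedding. -/
theorem case_inl {K : Type} [Field K] [NumberField K] (T : Finset Nat.Primes) (σ₀ : K →+* ℂ) :
    ∃ (Ω : Type) (_ : NormedField Ω) (_ : IsAlgClosed Ω) (_ : CharZero Ω)
        (_ : Algebra K Ω) (Λ' : Type) (_ : Fintype Λ') (Z : PD K Ω Λ') (ι : Λ' → Lam K T),
        Z.O = OP K (pprod (pr T)) ∧ (∀ x, ‖algebraMap K Ω x‖ = av K T (Sum.inl σ₀) x) ∧
          ∀ l x, Z.abv l x = av K T (ι l) x := by
  classical
  letI : Algebra K ℂ := σ₀.toAlgebra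
  let G : Finset (Lam K T) := {Sum.inl σ₀, Sum.inl ((starRingEnd ℂ).comp σ₀)}
  have hG0 : (Sum.inl σ₀ : Lam K T) ∈ G := Finset.mem_insert_self _ _
  have hmem : ∀ l ∈ G, l = Sum.inl σ₀ ∨ l = Sum.inl ((starRingEnd ℂ).comp σ₀) := by
    intro l hl
    rcases Finset.mem_insert.1 hl with h | h
    · exact Or.inl h
    · exact Or.inr (Finset.mem_singleton.1 h)
  have hN : ∀ l ∈ G, ∀ x, av K T l x = ‖algebraMap K ℂ x‖ := by
    intro l hl x
    rcases hmem l hl with rfl | rfl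
    · rfl
    · rw [av_inl]
      exact Complex.norm_conj (σ₀ x)
  refine ⟨ℂ, inferInstance, inferInstance, inferInstance, inferInstance,
    {l : Lam K T // l ∉ G}, inferInstance,
    mkPD T G ⟨_, hG0⟩ hN ?_, fun l => l.1, rfl, fun x => rfl, fun l x => rfl⟩
  intro M A hM hA hdet δ B hδ
  refine sub_gen (L := K) (RingHom.id K) T σ₀ G ?_ ?_ A hM (fun i j => ?_) hdet δ B hδ
  · intro σ hσ
    rcases hmem _ hσ with h | h
    · refine ⟨RingHom.id ℂ, fun z => rfl, fun x => ?_⟩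
      rw [Sum.inl.inj h]
      rfl
    · refine ⟨starRingEnd ℂ, fun z => Complex.norm_conj z, fun x => ?_⟩
      rw [Sum.inl.inj h]
      rfl
  · intro t σ hσ
    exfalso
    rcases hmem _ hσ with h | h
    · rw [idx] at h
      exact Sum.inr_ne_inl h
    · rw [idx] at h
      exact Sum.inr_ne_inl h
  · exact Pool.Agent.Helper94.Sub.isAlgebraic_map (K := K) (RingHom.id ℂ) (hA i j)

/-- The case of a `p`-adic embedding. -/
theorem case_inr {K : Type} [Field K] [NumberField K] (T : Finset Nat.Primes) (t₀ : T)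
    (σ₀ : K →+* FF K (pr T t₀)) :
    ∃ (Ω : Type) (_ : NormedField Ω) (_ : IsAlgClosed Ω) (_ : CharZero Ω)
        (_ : Algebra K Ω) (Λ' : Type) (_ : Fintype Λ') (Z : PD K Ω Λ') (ι : Λ' → Lam K T),
        Z.O = OP K (pprod (pr T)) ∧
          (∀ x, ‖algebraMap K Ω x‖ = av K T (Sum.inr ⟨t₀, σ₀⟩) x) ∧
          ∀ l x, Z.abv l x = av K T (ι l) x := by
  classical
  let s₀ : K →+* PadicAlgCl (pr T t₀) := liftEquiv σ₀
  letI : Algebra K (PadicAlgCl (pr T t₀)) := s₀.toAlgebra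
  let G : Finset (Lam K T) := (Finset.univ.filter fun σ : K →+* FF K (pr T t₀) =>
    ∀ x, ‖σ x‖ = ‖σ₀ x‖).image fun σ => Sum.inr ⟨t₀, σ⟩
  have hG0 : (Sum.inr ⟨t₀, σ₀⟩ : Lam K T) ∈ G :=
    Finset.mem_image_of_mem _ (Finset.mem_filter.2 ⟨Finset.mem_univ _, fun _ => rfl⟩)
  have hmem : ∀ l ∈ G, ∃ σ : K →+* FF K (pr T t₀), (∀ x, ‖σ x‖ = ‖σ₀ x‖) ∧
      l = Sum.inr ⟨t₀, σ⟩ := by
    intro l hl
    obtain ⟨σ, h1, h2⟩ := Finset.mem_image.1 hl
    exact ⟨σ, (Finset.mem_filter.1 h1).2, h2.symm⟩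
  have hN : ∀ l ∈ G, ∀ x, av K T l x = ‖algebraMap K (PadicAlgCl (pr T t₀)) x‖ := by
    intro l hl x
    obtain ⟨σ, h1, rfl⟩ := hmem l hl
    rw [av_inr, h1 x]
    rfl
  refine ⟨PadicAlgCl (pr T t₀), inferInstance, inferInstance, inferInstance, inferInstance,
    {l : Lam K T // l ∉ G}, inferInstance,
    mkPD T G ⟨_, hG0⟩ hN ?_, fun l => l.1, rfl, fun x => rfl, fun l x => rfl⟩
  intro M A hM hA hdet δ B hδ
  have hAQ : ∀ i k, IsAlgebraic ℚ (A i k) := fun i k =>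
    Pool.Agent.Helper94.Sub.isAlgebraic_map (K := K) (RingHom.id (PadicAlgCl (pr T t₀))) (hA i k)
  obtain ⟨L, _, _, j, ι, hj, hE⟩ := exists_nf s₀
    (Finset.univ.image fun q : Fin M × Fin M => A q.1 q.2) (by
      intro x hx
      obtain ⟨q, -, rfl⟩ := Finset.mem_image.1 hx
      exact hAQ _ _)
  have hE' : ∀ i k, ∃ y, ι y = A i k := fun i k =>
    hE _ (Finset.mem_image.2 ⟨(i, k), Finset.mem_univ _, rfl⟩)
  choose y hy using hE'
  let A₀ : Matrix (Fin M) (Fin M) (FF L (pr T t₀)) := fun i k => lift ι (y i k)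
  let v : FF L (pr T t₀) →+* PadicAlgCl (pr T t₀) :=
    ((FF L (pr T t₀)).val : FF L (pr T t₀) →+* PadicAlgCl (pr T t₀))
  have hv : ∀ i k, v (A₀ i k) = A i k := fun i k => hy i k
  let σ₁ : K →+* FF L (pr T t₀) := (lfe j).symm s₀
  have hσ₁ : ∀ x, v (σ₁ x) = algebraMap K (PadicAlgCl (pr T t₀)) x := by
    intro x
    have h1 : lfe j σ₁ = s₀ := (lfe j).apply_symm_apply s₀
    have h2 : lfe j σ₁ x = s₀ x := by rw [h1]
    exact h2
  have hvn : ∀ z, ‖v z‖ = ‖z‖ := fun z => rfl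
  have hσ₁n : ∀ x, ‖σ₁ x‖ = ‖σ₀ x‖ := by
    intro x
    rw [← hvn, hσ₁]
    rfl
  have hdet₀ : A₀.det ≠ 0 := by
    intro h0
    apply hdet
    have h1 : A = A₀.map v := by
      ext i k
      exact (hv i k).symm
    have h2 : (A₀.map v).det = v A₀.det := (RingHom.map_det v _).symm
    rw [h1, h2, h0, map_zero]
  have hA₀ : ∀ i k, IsAlgebraic ℚ (A₀ i k) := fun i k => by
    have h1 : IsAlgebraic ℚ (y i k) := Algebra.IsAlgebraic.isAlgebraic _
    exact h1.algHom (lift ι).toRatAlgHom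
  obtain ⟨𝒲, h𝒲, hmain⟩ := sub_gen (L := L) j T σ₁ G (by
      intro σ hσ
      exfalso
      obtain ⟨σ', -, h2⟩ := hmem _ hσ
      exact Sum.inl_ne_inr h2) (by
      intro t σ hσ
      obtain ⟨σ', h1, h2⟩ := hmem _ hσ
      rw [idx] at h2
      have h3 := Sum.inr.inj h2
      have ht : t = t₀ := congrArg Sigma.fst h3
      subst ht
      have h4 : dn j σ = σ' := eq_of_heq (Sigma.mk.inj h3).2
      refine exists_conj (K := K) (L := L) σ₁ σ fun x => ?_
      rw [← dn_norm j σ x, h4, h1 x, hσ₁n x]) A₀ hM hA₀ hdet₀ δ B hδ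
  refine ⟨𝒲, h𝒲, ?_⟩
  intro Q a b z hQ hz ha hb hrow hav hprod
  refine hmain Q a b z hQ hz ha hb ?_ hav hprod
  intro i
  have h1 : v (∑ k, A₀ i k * σ₁ (z k)) =
      ∑ k, A i k * algebraMap K (PadicAlgCl (pr T t₀)) (z k) := by
    rw [map_sum]
    refine Finset.sum_congr rfl fun k _ => ?_
    rw [map_mul, hv, hσ₁]
  rw [← hvn, h1]
  exact hrow i

/-- A -/
theorem exists_pd (K : Type) [Field K] [NumberField K] (F : Finset K) :
    ∃ (Λ : Type) (_ : Fintype Λ) (abv : Λ → AbsoluteValue K ℝ) (O : Subring K),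
      (∀ x ∈ F, x ∈ O) ∧ (∀ B : ℝ, {x : K | x ∈ O ∧ ∀ l, abv l x ≤ B}.Finite) ∧
      ∀ l₀ : Λ, ∃ (Ω : Type) (_ : NormedField Ω) (_ : IsAlgClosed Ω) (_ : CharZero Ω)
        (_ : Algebra K Ω) (Λ' : Type) (_ : Fintype Λ') (Z : PD K Ω Λ') (ι : Λ' → Λ),
        Z.O = O ∧ (∀ x, ‖algebraMap K Ω x‖ = abv l₀ x) ∧ ∀ l x, Z.abv l x = abv (ι l) x := by
  classical
  choose q' hq' using fun v : FinitePlace K => exists_prime_below v
  have hfin : ∀ x : K, {v : FinitePlace K | 1 < v x}.Finite := by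
    intro x
    by_cases hx : x = 0
    · subst hx
      refine Set.finite_empty.subset ?_
      intro v hv
      simp only [Set.mem_ofPred_eq, map_zero] at hv
      linarith
    · exact (FinitePlace.hasFiniteMulSupport hx).subset fun v hv => (ne_of_gt hv)
  let T : Finset Nat.Primes := F.biUnion fun x => (hfin x).toFinset.image q'
  refine ⟨Lam K T, inferInstance, av K T, OP K (pprod (pr T)), ?_, fun B => finite_le B, ?_⟩
  · intro x hx
    refine mem_OP_of_le (hfin x).toFinset _ ?_ x ?_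
    · intro v hv
      refine pprod_mem T (q' v) ?_ v (hq' v)
      exact Finset.mem_biUnion.2 ⟨x, hx, Finset.mem_image_of_mem _ hv⟩
    · intro v hv
      rw [Set.Finite.mem_toFinset, Set.mem_ofPred_eq, not_lt] at hv
      exact hv
  · rintro (σ₀ | ⟨t₀, σ₀⟩)
    · exact case_inl T σ₀
    · exact case_inr T t₀ σ₀

end Pool.Agent.Helper33.RP
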